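import Pool.Agent.Helper29.SR.Props
import Pool.Agent.Helper10.RC.Homs

/-!
# MP_b55b7c_an: an element of rank close to one over a power of two at every tracial state
-/

open scoped ENNReal NNReal InnerProductSpace ComplexOrder
open Filter Topology

attribute [-instance] CStarMatrix.instAlgebra CStarMatrix.instModule CStarMatrix.instSMul
  CStarMatrix.instMulAction CStarMatrix.instDistribMulAction

noncomputable section
namespace RC
universe u

section
variable {A : Type u} [CStarAlgebra A] [PartialOrder A] [StarOrderedRing A]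
variable {κ μ : Type} [Fintype κ] [DecidableEq κ] [Fintype μ] [DecidableEq μ]

/-- A positive multiple of a matrix is Cuntz below the matrix. -/
theorem nearC_cu_smul (C : ℝ) (hC : 0 ≤ C) (y : CStarMatrix κ κ A) : Cu (C • y) y := by
  intro ε hε
  refine ⟨Real.sqrt C • (1 : CStarMatrix κ κ A), ?_⟩
  rw [cm_conj_rsmul, cm_conj_one, cm_rsmul_mul, cm_rsmul_mul, cm_one_mul, cm_mul_rsmul,
    cm_mul_one, smul_smul, Real.mul_self_sqrt hC, sub_self, norm_zero]
  exact hε

theorem nearC_dim_le (hLe : CuLeAddP.{u}) (hMo : QMonoP.{u}) (σ : QTrace A) (C : ℝ) (hC : 0 ≤ C)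
    (x y : CStarMatrix κ κ A) (hx : 0 ≤ x) (hy : 0 ≤ y) (h : x ≤ C • y) :
    σ.dim x ≤ σ.dim y := by
  have hCy : 0 ≤ C • y := hx.trans h
  have h1 : Cu (cut x 0) (C • y) := hLe A κ x (C • y) 0 le_rfl hx hCy (by
    rw [zero_smul, add_zero]; exact h)
  rw [cut_zero hx] at h1
  exact (hMo A σ κ κ x (C • y) hx hCy h1).trans
    (hMo A σ κ κ (C • y) y hCy hy (nearC_cu_smul C hC y))

theorem nearC_dim_swap (hSw : CuSwapP.{u}) (hMo : QMonoP.{u}) (σ : QTrace A)
    (z : CStarMatrix κ μ A) :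
    σ.dim (z.conjTranspose * z) ≤ σ.dim (z * z.conjTranspose) := by
  have h1 := hSw A μ κ z.conjTranspose 0 le_rfl
  rw [cm_conj_conj, cut_zero (cm_conj_mul_nonneg z), cut_zero (cm_mul_conj_nonneg z)] at h1
  exact hMo A σ μ κ _ _ (cm_conj_mul_nonneg z) (cm_mul_conj_nonneg z) h1

/-- `b p b` is dominated by a multiple of `b`. -/
theorem nearC_sand {D : Type u} [CStarAlgebra D] [PartialOrder D] [StarOrderedRing D]
    (b p : D) (hb : 0 ≤ b) (hp : 0 ≤ p) : b * p * b ≤ (‖p‖ * ‖b‖) • b := by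
  have hbs : star b = b := hb.isSelfAdjoint
  have h1 : b * p * b ≤ ‖p‖ • (b * b) := by
    have h2 : star b * p * b ≤ ‖p‖ • (star b * b) := CStarAlgebra.star_left_conjugate_le_norm_smul
    rwa [hbs] at h2
  have h3 : b * b ≤ ‖b‖ • b := by
    have e1 : b * b = cfc (fun t : ℝ => t * t) b := by
      rw [cfc_mul (fun t : ℝ => t) (fun t : ℝ => t) b, cfc_id' ℝ b]
    have e2 : ‖b‖ • b = cfc (fun t : ℝ => ‖b‖ * t) b := by
      rw [cfc_const_mul ‖b‖ (fun t : ℝ => t) b, cfc_id' ℝ b]
    rw [e1, e2]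
    refine cfc_mono fun t ht => ?_
    have h0 := spectrum_nonneg_of_nonneg hb ht
    have h4 : ‖t‖ ≤ ‖b‖ := by
      have := spectrum.norm_le_norm_mul_of_mem ht
      rcases subsingleton_or_nontrivial D with hs | hs
      · exact absurd ht (by simp [spectrum.of_subsingleton])
      · simpa using this
    rw [Real.norm_of_nonneg h0] at h4
    exact mul_le_mul_of_nonneg_right h4 h0
  calc b * p * b ≤ ‖p‖ • (b * b) := h1
    _ ≤ ‖p‖ • (‖b‖ • b) := smul_le_smul_of_nonneg_left h3 (norm_nonneg p)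
    _ = (‖p‖ * ‖b‖) • b := smul_smul _ _ _

theorem nearC_dim_sand (hLe : CuLeAddP.{u}) (hMo : QMonoP.{u}) (σ : QTrace A)
    (b p : CStarMatrix κ κ A) (hb : 0 ≤ b) (hp : 0 ≤ p) : σ.dim (b * p * b) ≤ σ.dim b := by
  refine nearC_dim_le hLe hMo σ (‖p‖ * ‖b‖) (by positivity) _ b ?_ hb (nearC_sand b p hb hp)
  have hbs : star b = b := hb.isSelfAdjoint
  have := star_left_conjugate_nonneg hp b
  rwa [hbs] at this

end

theorem nearC (hU : UBdP.{u}) (hC : CoverP.{u}) (hM : MinMP.{u}) (hOne : QOneP.{u})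
    (hSw : CuSwapP.{u}) (hLe : CuLeAddP.{u}) (hMo : QMonoP.{u}) : NearCP.{u} := by
  intro B _ _ _ hSR hNF k ε hε
  let S : Type u := {p : CStarMatrix (Unit ⊕ Unit) (Unit ⊕ Unit) B × B // 0 ≤ p.1 ∧
    (∀ σ : QTrace B, 1 / 2 ^ k ≤ σ.dim p.1) ∧
    ∀ (ψ : TState B) (σ : QTrace B), IsQ ψ σ → 0 < (ψ.φ p.2).re → σ.dim p.1 ≤ 1 / 2 ^ k + ε}
  obtain ⟨T, hT⟩ := hC B S (fun s => s.1.2) (by
    intro φ
    obtain ⟨y, f, hy, h1, h2, h3⟩ := hU B hNF φ k ε hε
    exact ⟨⟨(y, f), hy, h1, h3⟩, h2⟩)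
  have key : ∀ (e : ℝ), 0 < e → ∀ l : List S, ∃ (z : B) (s : ℝ), 0 ≤ z ∧ 0 < s ∧
      (∀ (φ : TState B) (σ : QTrace B), IsQ φ σ →
        1 / 2 ^ k - l.length * e ≤ σ.dim (one1 (cut z s))) ∧
      ∀ p ∈ l, ∀ σ : QTrace B, σ.dim (one1 z) ≤ σ.dim p.1.1 := by
    intro e he l
    induction l with
    | nil =>
      refine ⟨1, 1 / 2, zero_le_one, by norm_num, ?_, by simp⟩
      intro φ σ _
      have h1 : (1 : B) ≤ (2 : ℝ) • cut (1 : B) (1 / 2) := by
        have h2 := le_cut_add (IsSelfAdjoint.one B) (1 / 2)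
        have h3 : (1 / 2 : ℝ) • (1 : B) ≤ cut (1 : B) (1 / 2) := by
          have h4 : (1 : B) - (1 / 2 : ℝ) • (1 : B) ≤ cut (1 : B) (1 / 2) := by
            rw [sub_le_iff_le_add]; exact h2
          have h5 : (1 : B) - (1 / 2 : ℝ) • (1 : B) = (1 / 2 : ℝ) • (1 : B) := by
            have : (1 : B) = (1 : ℝ) • (1 : B) := (one_smul ℝ _).symm
            conv_lhs => rw [this]
            rw [smul_smul, ← sub_smul]
            norm_num
          rwa [h5] at h4
        have h6 := smul_le_smul_of_nonneg_left h3 (by norm_num : (0 : ℝ) ≤ 2)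
        rw [smul_smul] at h6
        norm_num at h6
        simpa using h6
      have h7 : (1 : CStarMatrix Unit Unit B) ≤ (2 : ℝ) • one1 (cut (1 : B) (1 / 2)) := by
        have h8 : one1H (1 : B) ≤ one1H ((2 : ℝ) • cut (1 : B) (1 / 2)) := by
          have h9 := map_nonneg (one1H (A := B)) (sub_nonneg.2 h1)
          rw [map_sub] at h9
          exact sub_nonneg.1 h9
        rw [map_one] at h8
        exact h8
      have h10 : (σ.dim (1 : CStarMatrix Unit Unit B)) ≤ σ.dim (one1 (cut (1 : B) (1 / 2))) :=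
        nearC_dim_le hLe hMo σ 2 (by norm_num) _ _ zero_le_one
          (one1_nonneg (cut_nonneg _ _)) h7
      rw [(hOne B σ Unit).2] at h10
      have h11 : (1 : ℝ) / 2 ^ k ≤ 1 := by
        rw [div_le_one (by positivity)]
        exact one_le_pow₀ (by norm_num)
      simp only [List.length_nil, Nat.cast_zero, zero_mul, sub_zero]
      refine h11.trans ?_
      simpa using h10
    | cons p l ih =>
      obtain ⟨z, s, hz, hs, hl, hup⟩ := ih
      have hcut : ∀ σ : QTrace B, σ.dim (one1 (cut z s)) ≤ σ.dim (one1 z) := by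
        intro σ
        refine nearC_dim_le hLe hMo σ 1 zero_le_one _ _ (one1_nonneg (cut_nonneg _ _))
          (one1_nonneg hz) ?_
        rw [one_smul]
        have h9 := map_nonneg (one1H (A := B)) (sub_nonneg.2 (cut_le hz hs.le))
        rw [map_sub] at h9
        exact sub_nonneg.1 h9
      obtain ⟨X, s', hs', hX⟩ := hM B hSR Unit (Unit ⊕ Unit) (one1 z) p.1.1
        (1 / 2 ^ k - l.length * e) (one1_nonneg hz) p.2.1 (by
          intro φ σ hq
          refine ⟨(hl φ σ hq).trans (hcut σ), ?_⟩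
          have := p.2.2.1 σ
          have h0 : 0 ≤ (l.length : ℝ) * e := by positivity
          linarith) e he
      obtain ⟨w, hw⟩ : ∃ w : CStarMatrix (Unit ⊕ Unit) Unit B, w = p.1.1 * X * one1 z := ⟨_, rfl⟩
      have hz' : one1 ((w.conjTranspose * w) () ()) = w.conjTranspose * w := by
        ext i j
        rfl
      have hz'0 : 0 ≤ (w.conjTranspose * w) () () := by
        rw [CStarMatrix.mul_apply]
        refine Finset.sum_nonneg fun i _ => ?_
        exact star_mul_self_nonneg _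
      have hcc : w.conjTranspose * w =
          one1 z * ((p.1.1 * X).conjTranspose * (p.1.1 * X)) * one1 z := by
        rw [hw, cm_conj_mul, cm_star_eq (one1 z), (one1_nonneg hz).isSelfAdjoint.star_eq]
        simp only [cm_assoc]
      have hdd : w * w.conjTranspose =
          p.1.1 * ((X * one1 z) * (X * one1 z).conjTranspose) * p.1.1 := by
        have h1 : w = p.1.1 * (X * one1 z) := by rw [hw, cm_assoc]
        rw [h1, cm_conj_mul p.1.1 (X * one1 z), cm_star_eq p.1.1, p.2.1.isSelfAdjoint.star_eq]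
        simp only [cm_assoc]
      have ha : ∀ σ : QTrace B, σ.dim (w.conjTranspose * w) ≤ σ.dim (one1 z) := by
        intro σ
        rw [hcc]
        exact nearC_dim_sand hLe hMo σ _ _ (one1_nonneg hz) (cm_conj_mul_nonneg _)
      have hb : ∀ σ : QTrace B, σ.dim (w.conjTranspose * w) ≤ σ.dim p.1.1 := by
        intro σ
        refine (nearC_dim_swap hSw hMo σ w).trans ?_
        rw [hdd]
        exact nearC_dim_sand hLe hMo σ _ _ p.2.1 (cm_mul_conj_nonneg _)
      refine ⟨(w.conjTranspose * w) () (), s', hz'0, hs', ?_, ?_⟩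
      · intro φ σ hq
        rw [← cut_one1 hz'0.isSelfAdjoint, hz', hw]
        have := hX φ σ hq
        simp only [List.length_cons, Nat.cast_add, Nat.cast_one]
        linarith
      · intro q hqm σ
        rw [hz']
        rcases List.mem_cons.1 hqm with rfl | hq
        · exact hb σ
        · exact (ha σ).trans (hup q hq σ)
  obtain ⟨z, s, hz, hs, hl, hup⟩ := key (ε / (T.card + 1)) (by positivity) T.toList
  refine ⟨z, s, hz, hs, fun φ σ hq => ⟨?_, ?_⟩⟩
  · have h1 := hl φ σ hq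
    have h2 : (T.toList.length : ℝ) * (ε / (T.card + 1)) ≤ ε := by
      rw [Finset.length_toList, mul_div_assoc', div_le_iff₀ (by positivity)]
      nlinarith [hε]
    linarith
  · obtain ⟨q, hqT, hq0⟩ := hT φ
    exact (hup q (Finset.mem_toList.2 hqT) σ).trans (q.2.2.2 φ σ hq hq0)

end RC
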