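import Pool.Agent.Helper7.SR.Goals

/-!
# Project SR (MP_bb782b_co), packet SR-MAIN: the potential argument
-/

set_option autoImplicit false

namespace Pool.Agent.Helper48.SR

open Finset
open scoped Classical
open Pool.Agent.Helper7.SR

/-! ### Covers -/

section cover

variable {α : Type*} {M N : Matroid α}

theorem cover_zero : Cover M N (∅ : Finset α) 0 :=
  ⟨fun i => i.elim0, fun i => i.elim0, fun i => i.elim0, by simp⟩

theorem cover_one {T : Finset α} (h1 : M.Indep (T : Set α)) (h2 : N.Indep (T : Set α)) :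
    Cover M N T 1 :=
  ⟨fun _ => T, fun _ => ⟨h1, h2⟩, fun i j h => absurd (Subsingleton.elim i j) h, by simp⟩

theorem cover_add {R1 R2 : Finset α} {m1 m2 : ℕ} (h1 : Cover M N R1 m1) (h2 : Cover M N R2 m2)
    (hd : Disjoint R1 R2) : Cover M N (R1 ∪ R2) (m1 + m2) := by
  obtain ⟨T1, hi1, hd1, hR1⟩ := h1
  obtain ⟨T2, hi2, hd2, hR2⟩ := h2
  have s1 : ∀ i, T1 i ⊆ R1 := fun i => by
    rw [hR1]; exact subset_biUnion_of_mem T1 (mem_univ i)
  have s2 : ∀ i, T2 i ⊆ R2 := fun i => by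
    rw [hR2]; exact subset_biUnion_of_mem T2 (mem_univ i)
  refine ⟨Fin.append T1 T2, ?_, ?_, ?_⟩
  · intro i
    induction i using Fin.addCases with
    | left i => rw [Fin.append_left]; exact hi1 i
    | right i => rw [Fin.append_right]; exact hi2 i
  · intro i j hij
    induction i using Fin.addCases with
    | left i =>
      induction j using Fin.addCases with
      | left j =>
        rw [Fin.append_left, Fin.append_left]
        exact hd1 i j fun h => hij (by rw [h])
      | right j =>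
        rw [Fin.append_left, Fin.append_right]
        exact (hd.mono_left (s1 i)).mono_right (s2 j)
    | right i =>
      induction j using Fin.addCases with
      | left j =>
        rw [Fin.append_left, Fin.append_right]
        exact ((hd.mono_left (s1 j)).mono_right (s2 i)).symm
      | right j =>
        rw [Fin.append_right, Fin.append_right]
        exact hd2 i j fun h => hij (by rw [h])
  · rw [hR1, hR2]
    ext x
    simp only [mem_union, mem_biUnion, mem_univ, true_and]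
    constructor
    · rintro (⟨i, hi⟩ | ⟨i, hi⟩)
      · exact ⟨Fin.castAdd m2 i, by rwa [Fin.append_left]⟩
      · exact ⟨Fin.natAdd m1 i, by rwa [Fin.append_right]⟩
    · rintro ⟨i, hi⟩
      induction i using Fin.addCases with
      | left i => rw [Fin.append_left] at hi; exact Or.inl ⟨i, hi⟩
      | right i => rw [Fin.append_right] at hi; exact Or.inr ⟨i, hi⟩

end cover

/-! ### The potential -/

section potential

variable {α : Type*}

/-- The number of elements of `Q` in the closure of `I`. -/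
noncomputable def cd (P : Matroid α) (Q I : Finset α) : ℕ :=
  (Q.filter (fun x => x ∈ P.closure (I : Set α))).card

/-- The nonempty independent subsets of `R`. -/
noncomputable def JJ (P : Matroid α) (R : Finset α) : Finset (Finset α) :=
  R.powerset.filter (fun I => I.Nonempty ∧ P.Indep (I : Set α))

/-- A term of the potential. -/
noncomputable def tm (w lam : ℝ) (P : Matroid α) (Q : Finset α) (κ : ℝ) (I : Finset α) : ℝ :=
  w ^ I.card * Real.exp (lam * ((cd P Q I : ℝ) - κ * I.card))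

/-- The potential. -/
noncomputable def Psi (w lam : ℝ) (M N : Matroid α) (R Q : Finset α) (κ : ℝ) : ℝ :=
  ∑ I ∈ JJ M R, tm w lam M Q κ I + ∑ I ∈ JJ N R, tm w lam N Q κ I

theorem mem_JJ {P : Matroid α} {R I : Finset α} :
    I ∈ JJ P R ↔ I ⊆ R ∧ I.Nonempty ∧ P.Indep (I : Set α) := by
  unfold JJ
  rw [mem_filter, mem_powerset]

theorem tm_nonneg {w lam : ℝ} (hw : 0 ≤ w) (P : Matroid α) (Q : Finset α) (κ : ℝ) (I : Finset α) :
    0 ≤ tm w lam P Q κ I := by
  unfold tm
  positivity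

theorem sum_w {w : ℝ} (hw : 0 ≤ w) (P : Matroid α) (R : Finset α) :
    ∑ I ∈ JJ P R, w ^ I.card ≤ (1 + w) ^ R.card - 1 := by
  have h1 : ∑ t ∈ R.powerset, w ^ t.card = (1 + w) ^ R.card := by
    have := Finset.sum_pow_mul_eq_add_pow w 1 R
    simp only [one_pow, mul_one] at this
    rw [this, add_comm]
  have h2 : JJ P R ⊆ R.powerset.erase ∅ := by
    intro I hI
    rw [mem_JJ] at hI
    rw [mem_erase, mem_powerset]
    exact ⟨hI.2.1.ne_empty, hI.1⟩
  have h3 : ∑ I ∈ JJ P R, w ^ I.card ≤ ∑ I ∈ R.powerset.erase ∅, w ^ I.card :=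
    sum_le_sum_of_subset_of_nonneg h2 fun I _ _ => by positivity
  have h4 := Finset.sum_erase_add (s := R.powerset) (a := ∅) (fun I : Finset α => w ^ I.card)
    (by simp)
  simp only [card_empty, pow_zero] at h4
  linarith

theorem sum_w' (P : Matroid α) (R : Finset α) {w : ℝ} (hw : w = 1 / (16 * ((R.card : ℝ) + 1))) :
    ∑ I ∈ JJ P R, w ^ I.card ≤ 1 / 8 := by
  have hw0 : 0 ≤ w := by rw [hw]; positivity
  refine (sum_w hw0 P R).trans ?_
  have h1 : (1 + w) ^ R.card ≤ Real.exp (1 / 16) := by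
    calc (1 + w) ^ R.card ≤ (Real.exp w) ^ R.card := by
          gcongr
          linarith [Real.add_one_le_exp w]
      _ = Real.exp (R.card * w) := by rw [← Real.exp_nat_mul]
      _ ≤ _ := by
          apply Real.exp_le_exp.2
          rw [hw]
          rw [mul_one_div, div_le_div_iff₀ (by positivity) (by norm_num)]
          linarith
  have h2 : Real.exp (1 / 16) ≤ 9 / 8 := by
    have h3 := Real.add_one_le_exp (-(1 / 16 : ℝ))
    rw [Real.exp_neg] at h3
    have h4 := Real.exp_pos (1 / 16 : ℝ)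
    have h5 : (15 / 16 : ℝ) ≤ (Real.exp (1 / 16))⁻¹ := by linarith
    have h6 : (15 / 16 : ℝ) * Real.exp (1 / 16) ≤ 1 := by
      calc (15 / 16 : ℝ) * Real.exp (1 / 16) ≤ (Real.exp (1 / 16))⁻¹ * Real.exp (1 / 16) := by
            gcongr
        _ = 1 := inv_mul_cancel₀ h4.ne'
    linarith
  linarith

theorem dens_of {w lam : ℝ} (hw : 0 < w) (hlam : 0 < lam) {P : Matroid α} {R Q : Finset α}
    (hQ : Q ⊆ R) {κ : ℝ} (hs : ∑ I ∈ JJ P R, tm w lam P Q κ I ≤ 1) {k : ℕ} (hD : Dens P R k)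
    {q : ℕ} (hq : κ + Real.log (1 / w) / lam ≤ q) : Dens P Q q := by
  refine ⟨(Finset.coe_subset.2 hQ).trans hD.1, ?_⟩
  intro I hI hInd
  rcases I.eq_empty_or_nonempty with h0 | h0
  · subst h0
    have h1 := hD.2 ∅ (by simp) (by simp)
    refine (card_le_card (filter_subset_filter _ hQ)).trans (h1.trans ?_)
    simp
  · have hJ : I ∈ JJ P R := mem_JJ.2 ⟨hI.trans hQ, h0, hInd⟩
    have h1 : tm w lam P Q κ I ≤ 1 :=
      (single_le_sum (fun J _ => tm_nonneg hw.le P Q κ J) hJ).trans hs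
    unfold tm at h1
    have h2 : w ^ I.card = Real.exp (I.card * Real.log w) := by
      rw [Real.exp_nat_mul, Real.exp_log hw]
    rw [h2, ← Real.exp_add] at h1
    have h3 : (I.card : ℝ) * Real.log w + lam * ((cd P Q I : ℝ) - κ * I.card) ≤ 0 := by
      rw [← Real.exp_le_exp, Real.exp_zero]
      exact h1
    have h4 : Real.log (1 / w) = - Real.log w := by
      rw [one_div, Real.log_inv]
    have h5 : (cd P Q I : ℝ) ≤ (κ + Real.log (1 / w) / lam) * I.card := by
      have h6 : lam * (cd P Q I : ℝ) ≤ lam * ((κ + Real.log (1 / w) / lam) * I.card) := by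
        have e : lam * ((κ + Real.log (1 / w) / lam) * I.card) =
            lam * κ * I.card - I.card * Real.log w := by
          rw [h4]
          field_simp
          ring
        rw [e]
        linarith
      exact le_of_mul_le_mul_left h6 hlam
    have h7 : (cd P Q I : ℝ) ≤ (q : ℝ) * I.card :=
      h5.trans (mul_le_mul_of_nonneg_right hq (Nat.cast_nonneg _))
    exact_mod_cast h7

theorem cd_sdiff {P : Matroid α} {Q T I : Finset α} (hT : T ⊆ Q) :
    (cd P (Q \ T) I : ℝ) = cd P Q I - cd P T I := by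
  unfold cd
  have h1 : (Q \ T).filter (fun x => x ∈ P.closure (I : Set α)) =
      Q.filter (fun x => x ∈ P.closure (I : Set α)) \
        T.filter (fun x => x ∈ P.closure (I : Set α)) := by
    ext x
    simp only [mem_filter, mem_sdiff]
    tauto
  have h2 := card_sdiff_add_card_eq_card
    (filter_subset_filter (fun x => x ∈ P.closure (I : Set α)) hT)
  rw [h1]
  have h3 : ((Q.filter (fun x => x ∈ P.closure (I : Set α)) \
        T.filter (fun x => x ∈ P.closure (I : Set α))).card : ℝ) +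
      (T.filter (fun x => x ∈ P.closure (I : Set α))).card =
      (Q.filter (fun x => x ∈ P.closure (I : Set α))).card := by
    exact_mod_cast h2
  linarith

theorem term_le {s k κ lam L q x n : ℝ} (hs : 12 ≤ s) (hk : 1 ≤ k) (hlam : 0 < lam) (hL : 0 ≤ L)
    (hκ : s / 3 * (L + 2 + Real.log (16 * k) / lam) ≤ κ) (hq1 : 1 ≤ q) (hq : q ≤ κ + L + 1)
    (hx : 0 ≤ x) (hn : 1 ≤ n) :
    Real.exp (lam * (x - (κ - (1 - 6 / s)) * n)) * Real.exp (-lam * ((1 - 3 / s) / q * x)) ≤
      Real.exp (lam * (x - κ * n)) + 1 / (16 * k) := by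
  rw [← Real.exp_add]
  have hs0 : 0 < s := by linarith
  have hs3 : 3 / s ≤ 1 / 4 := by
    rw [div_le_div_iff₀ hs0 (by norm_num)]
    linarith
  have hs3' : 0 ≤ 3 / s := by positivity
  have h6 : 6 / s = 2 * (3 / s) := by ring
  have hlog : 0 ≤ Real.log (16 * k) := Real.log_nonneg (by linarith)
  rcases le_or_gt ((1 - 6 / s) * n) ((1 - 3 / s) / q * x) with h | h
  · have h1 : Real.exp (lam * (x - (κ - (1 - 6 / s)) * n) + -lam * ((1 - 3 / s) / q * x)) ≤
        Real.exp (lam * (x - κ * n)) := by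
      apply Real.exp_le_exp.2
      have e : lam * (x - (κ - (1 - 6 / s)) * n) + -lam * ((1 - 3 / s) / q * x) =
          lam * (x - κ * n) - lam * ((1 - 3 / s) / q * x - (1 - 6 / s) * n) := by ring
      rw [e]
      have := mul_nonneg hlam.le (sub_nonneg.2 h)
      linarith
    have h2 : 0 ≤ 1 / (16 * k) := by positivity
    linarith
  · have hx2 : x ≤ (1 - 3 / s) * q * n := by
      have h1 : (1 - 3 / s) * x < (1 - 6 / s) * n * q := by
        have h2 : (1 - 3 / s) / q * x * q < (1 - 6 / s) * n * q :=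
          mul_lt_mul_of_pos_right h (by linarith)
        have e : (1 - 3 / s) / q * x * q = (1 - 3 / s) * x := by
          have : q ≠ 0 := by linarith
          field_simp
        rwa [e] at h2
      have h3 : (1 - 6 / s) * n * q ≤ (1 - 3 / s) * ((1 - 3 / s) * q * n) := by
        have h4 : (1 - 6 / s) ≤ (1 - 3 / s) * (1 - 3 / s) := by
          rw [h6]
          nlinarith [mul_self_nonneg (3 / s)]
        calc (1 - 6 / s) * n * q = (1 - 6 / s) * (n * q) := by ring
          _ ≤ (1 - 3 / s) * (1 - 3 / s) * (n * q) :=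
              mul_le_mul_of_nonneg_right h4 (by nlinarith)
          _ = _ := by ring
      exact le_of_mul_le_mul_left (h1.le.trans h3) (by linarith)
    have h5 : 0 ≤ (1 - 3 / s) / q * x := by
      have : 0 ≤ (1 - 3 / s) / q := div_nonneg (by linarith) (by linarith)
      positivity
    have hκ' : L + 2 + Real.log (16 * k) / lam ≤ 3 / s * κ := by
      calc L + 2 + Real.log (16 * k) / lam =
          3 / s * (s / 3 * (L + 2 + Real.log (16 * k) / lam)) := by
            field_simp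
        _ ≤ _ := mul_le_mul_of_nonneg_left hκ hs3'
    have h7 : (1 - 3 / s) * q - (κ - (1 - 6 / s)) ≤ -(Real.log (16 * k) / lam) := by
      have h8 : (1 - 3 / s) * q ≤ (1 - 3 / s) * (κ + L + 1) :=
        mul_le_mul_of_nonneg_left hq (by linarith)
      have h9 : 0 ≤ 3 / s * (L + 1) := by positivity
      have h10 : 0 ≤ 6 / s := by positivity
      nlinarith
    have h11 : lam * (x - (κ - (1 - 6 / s)) * n) + -lam * ((1 - 3 / s) / q * x) ≤
        -Real.log (16 * k) := by
      have h12 : lam * (x - (κ - (1 - 6 / s)) * n) ≤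
          lam * (n * ((1 - 3 / s) * q - (κ - (1 - 6 / s)))) := by
        apply mul_le_mul_of_nonneg_left _ hlam.le
        nlinarith
      have h13 : lam * (n * ((1 - 3 / s) * q - (κ - (1 - 6 / s)))) ≤
          lam * (n * -(Real.log (16 * k) / lam)) := by
        apply mul_le_mul_of_nonneg_left _ hlam.le
        exact mul_le_mul_of_nonneg_left h7 (by linarith)
      have h14 : lam * (n * -(Real.log (16 * k) / lam)) = -(n * Real.log (16 * k)) := by
        field_simp
      have h15 : Real.log (16 * k) ≤ n * Real.log (16 * k) := le_mul_of_one_le_left hlog hn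
      have h16 : 0 ≤ lam * ((1 - 3 / s) / q * x) := mul_nonneg hlam.le h5
      linarith
    have h17 : Real.exp (-Real.log (16 * k)) = 1 / (16 * k) := by
      rw [Real.exp_neg, Real.exp_log (by positivity), one_div]
    have h18 := Real.exp_le_exp.2 h11
    rw [h17] at h18
    have h19 := Real.exp_pos (lam * (x - κ * n))
    linarith

end potential

section step

universe u

variable {α : Type u}

theorem step (h : S_STEP.{u, 0}) {M N : Matroid α} {R Q : Finset α} {s k : ℕ} {κ w lam : ℝ}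
    (hs : 12 ≤ s) (hk : 1 ≤ k) (hlam : lam = 1 / ((s : ℝ) + 1) ^ 2)
    (hw : w = 1 / (16 * ((R.card : ℝ) + 1))) (hQ : Q ⊆ R) (hDM : Dens M R k) (hDN : Dens N R k)
    (hPsi : Psi w lam M N R Q κ ≤ 1)
    (hκ : (s : ℝ) / 3 * (Real.log (1 / w) / lam + 2 + Real.log (16 * k) / lam) ≤ κ) :
    ∃ T : Finset α, T ⊆ Q ∧ M.Indep (T : Set α) ∧ N.Indep (T : Set α) ∧
      Psi w lam M N R (Q \ T) (κ - (1 - 6 / s)) ≤ Psi w lam M N R Q κ + 1 / (16 * k) := by
  have hlam0 : 0 < lam := by rw [hlam]; positivity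
  have hw0 : 0 < w := by rw [hw]; positivity
  have hs' : (12 : ℝ) ≤ s := by exact_mod_cast hs
  have hk' : (1 : ℝ) ≤ k := by exact_mod_cast hk
  have hw1 : 1 ≤ 1 / w := by
    rw [hw, one_div_one_div]
    have : (0 : ℝ) ≤ R.card := Nat.cast_nonneg _
    linarith
  have hL : 0 ≤ Real.log (1 / w) / lam := div_nonneg (Real.log_nonneg hw1) hlam0.le
  have hlk : 0 ≤ Real.log (16 * k) / lam :=
    div_nonneg (Real.log_nonneg (by linarith)) hlam0.le
  have hκ1 : 1 ≤ κ := by
    refine le_trans ?_ hκ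
    nlinarith
  have hsM : ∑ I ∈ JJ M R, tm w lam M Q κ I ≤ 1 := by
    have : 0 ≤ ∑ I ∈ JJ N R, tm w lam N Q κ I :=
      sum_nonneg fun I _ => tm_nonneg hw0.le N Q κ I
    unfold Psi at hPsi
    linarith
  have hsN : ∑ I ∈ JJ N R, tm w lam N Q κ I ≤ 1 := by
    have : 0 ≤ ∑ I ∈ JJ M R, tm w lam M Q κ I :=
      sum_nonneg fun I _ => tm_nonneg hw0.le M Q κ I
    unfold Psi at hPsi
    linarith
  set q : ℕ := ⌈κ + Real.log (1 / w) / lam⌉₊ with hq
  have hq2 : κ + Real.log (1 / w) / lam ≤ q := Nat.le_ceil _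
  have hq3 : (q : ℝ) ≤ κ + Real.log (1 / w) / lam + 1 := (Nat.ceil_lt_add_one (by linarith)).le
  have hq1 : (1 : ℝ) ≤ q := by linarith
  have hq1' : 1 ≤ q := by exact_mod_cast hq1
  have dM := dens_of hw0 hlam0 hQ hsM hDM hq2
  have dN := dens_of hw0 hlam0 hQ hsN hDN hq2
  -- the weighted family
  let κ' : ℝ := κ - (1 - 6 / s)
  let F : {I // I ∈ JJ M R} ⊕ {I // I ∈ JJ N R} → ℝ :=
    Sum.elim (fun I => tm w lam M Q κ' I.1) (fun I => tm w lam N Q κ' I.1)
  let A : {I // I ∈ JJ M R} ⊕ {I // I ∈ JJ N R} → Set α :=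
    Sum.elim (fun I => M.closure (I.1 : Set α)) (fun I => N.closure (I.1 : Set α))
  let e := Fintype.equivFin ({I // I ∈ JJ M R} ⊕ {I // I ∈ JJ N R})
  have hF : ∀ j, 0 ≤ F j := by
    rintro (I | I)
    · exact tm_nonneg hw0.le M Q κ' I.1
    · exact tm_nonneg hw0.le N Q κ' I.1
  obtain ⟨T, hTQ, hT1, hT2, hT⟩ := h α _ M N Q q s (fun j => F (e.symm j)) (fun j => A (e.symm j))
    hq1' (by omega) dM dN (fun j => hF _)
  refine ⟨T, hTQ, hT1, hT2, ?_⟩
  rw [← hlam] at hT
  have e1 := Equiv.sum_comp e.symm fun j => F j * Real.exp (-lam *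
    ((T.filter (fun v => v ∈ A j)).card : ℝ))
  have e2 := Equiv.sum_comp e.symm fun j => F j * Real.exp (-lam *
    ((1 - 3 / (s : ℝ)) / q * ((Q.filter (fun v => v ∈ A j)).card : ℝ)))
  rw [e1, e2, Fintype.sum_sum_type, Fintype.sum_sum_type] at hT
  have e3 : ∀ P : Matroid α, ∑ I : {I // I ∈ JJ P R}, tm w lam P Q κ' I.1 *
      Real.exp (-lam * ((T.filter (fun v => v ∈ P.closure (I.1 : Set α))).card : ℝ)) =
      ∑ I ∈ JJ P R, tm w lam P (Q \ T) κ' I := by
    intro P
    rw [Finset.sum_coe_sort (JJ P R) (fun I => tm w lam P Q κ' I *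
      Real.exp (-lam * ((T.filter (fun v => v ∈ P.closure (I : Set α))).card : ℝ)))]
    refine sum_congr rfl fun I _ => ?_
    unfold tm
    rw [mul_assoc, ← Real.exp_add, cd_sdiff hTQ]
    congr 2
    unfold cd
    ring
  have e4 : ∀ P : Matroid α, ∑ I : {I // I ∈ JJ P R}, tm w lam P Q κ' I.1 *
      Real.exp (-lam * ((1 - 3 / (s : ℝ)) / q *
        ((Q.filter (fun v => v ∈ P.closure (I.1 : Set α))).card : ℝ))) ≤
      ∑ I ∈ JJ P R, tm w lam P Q κ I + 1 / (16 * k) * (1 / 8) := by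
    intro P
    rw [Finset.sum_coe_sort (JJ P R) (fun I => tm w lam P Q κ' I *
      Real.exp (-lam * ((1 - 3 / (s : ℝ)) / q *
        ((Q.filter (fun v => v ∈ P.closure (I : Set α))).card : ℝ))))]
    have h1 : ∀ I ∈ JJ P R, tm w lam P Q κ' I * Real.exp (-lam * ((1 - 3 / (s : ℝ)) / q *
        ((Q.filter (fun v => v ∈ P.closure (I : Set α))).card : ℝ))) ≤
        tm w lam P Q κ I + 1 / (16 * k) * w ^ I.card := by
      intro I hI
      have hI1 : (1 : ℝ) ≤ I.card := by
        have := (mem_JJ.1 hI).2.1.card_pos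
        exact_mod_cast this
      have h2 := term_le (s := s) (k := k) (κ := κ) (lam := lam) (L := Real.log (1 / w) / lam)
        (q := q) (x := (cd P Q I : ℝ)) (n := I.card) hs' hk' hlam0 hL hκ hq1 hq3
        (Nat.cast_nonneg _) hI1
      have h3 : 0 ≤ w ^ I.card := by positivity
      have h4 := mul_le_mul_of_nonneg_left h2 h3
      unfold tm
      unfold cd at h4 ⊢
      calc _ = w ^ I.card * (Real.exp (lam * (((Q.filter
              (fun v => v ∈ P.closure (I : Set α))).card : ℝ) - (κ - (1 - 6 / s)) * I.card)) *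
            Real.exp (-lam * ((1 - 3 / (s : ℝ)) / q *
              ((Q.filter (fun v => v ∈ P.closure (I : Set α))).card : ℝ)))) := by
            rw [mul_assoc]
        _ ≤ _ := h4
        _ = _ := by ring
    refine (sum_le_sum h1).trans ?_
    rw [sum_add_distrib, ← mul_sum]
    have h5 := sum_w' P R hw
    have h6 : (0 : ℝ) ≤ 1 / (16 * k) := by positivity
    have := mul_le_mul_of_nonneg_left h5 h6
    linarith
  have hM := e4 M
  have hN := e4 N
  have hT' : ∑ I ∈ JJ M R, tm w lam M (Q \ T) κ' I + ∑ I ∈ JJ N R, tm w lam N (Q \ T) κ' I ≤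
      (∑ I ∈ JJ M R, tm w lam M Q κ I + 1 / (16 * k) * (1 / 8)) +
      (∑ I ∈ JJ N R, tm w lam N Q κ I + 1 / (16 * k) * (1 / 8)) := by
    rw [← e3 M, ← e3 N]
    exact hT.trans (add_le_add hM hN)
  have h6 : (0 : ℝ) ≤ 1 / (16 * k) := by positivity
  unfold Psi
  show ∑ I ∈ JJ M R, tm w lam M (Q \ T) κ' I + ∑ I ∈ JJ N R, tm w lam N (Q \ T) κ' I ≤ _
  linarith

/-- The potential argument. -/
theorem iter (h : S_STEP.{u, 0}) {M N : Matroid α} {R : Finset α} {s k : ℕ} {w lam κm : ℝ}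
    (hs : 12 ≤ s) (hk : 1 ≤ k) (hlam : lam = 1 / ((s : ℝ) + 1) ^ 2)
    (hw : w = 1 / (16 * ((R.card : ℝ) + 1))) (hDM : Dens M R k) (hDN : Dens N R k)
    (hκm : κm = (s : ℝ) / 3 * (Real.log (1 / w) / lam + 2 + Real.log (16 * k) / lam))
    (hκ0 : 0 ≤ κm) (i : ℕ) (hi : ∀ j < i, κm ≤ (k : ℝ) - j * (1 - 6 / s)) :
    ∃ Q : Finset α, Q ⊆ R ∧
      Psi w lam M N R Q ((k : ℝ) - i * (1 - 6 / s)) ≤ 1 / 4 + i / (16 * k) ∧
      Cover M N (R \ Q) i := by
  have hlam0 : 0 < lam := by rw [hlam]; positivity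
  have hw0 : 0 < w := by rw [hw]; positivity
  have hs' : (12 : ℝ) ≤ s := by exact_mod_cast hs
  have hk' : (1 : ℝ) ≤ k := by exact_mod_cast hk
  have h6 : 6 / (s : ℝ) ≤ 1 / 2 := by
    rw [div_le_div_iff₀ (by linarith) (by norm_num)]
    linarith
  induction i with
  | zero =>
    refine ⟨R, Subset.refl R, ?_, by rw [sdiff_self]; exact cover_zero⟩
    have h1 : ∀ P : Matroid α, Dens P R k → ∑ I ∈ JJ P R, tm w lam P R k I ≤ 1 / 8 := by
      intro P hD
      refine (sum_le_sum fun I hI => ?_).trans (sum_w' P R hw)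
      unfold tm
      have h2 : Real.exp (lam * ((cd P R I : ℝ) - k * I.card)) ≤ 1 := by
        rw [← Real.exp_zero]
        apply Real.exp_le_exp.2
        have hI' := mem_JJ.1 hI
        have h3 := hD.2 I hI'.1 hI'.2.2
        have h4 : (cd P R I : ℝ) ≤ k * I.card := by exact_mod_cast h3
        nlinarith
      have h5 : 0 ≤ w ^ I.card := by positivity
      calc w ^ I.card * Real.exp (lam * ((cd P R I : ℝ) - k * I.card)) ≤ w ^ I.card * 1 :=
            mul_le_mul_of_nonneg_left h2 h5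
        _ = _ := mul_one _
    have hM := h1 M hDM
    have hN := h1 N hDN
    have e : (k : ℝ) - ((0 : ℕ) : ℝ) * (1 - 6 / s) = k := by simp
    rw [e]
    unfold Psi
    have e2 : ((0 : ℕ) : ℝ) / (16 * k) = 0 := by simp
    rw [e2]
    linarith
  | succ i ih =>
    obtain ⟨Q, hQ, hPsi, hC⟩ := ih fun j hj => hi j (by omega)
    have hκi := hi i (by omega)
    have hi2 : (i : ℝ) ≤ 2 * k := by
      have h0 : (0 : ℝ) ≤ i := Nat.cast_nonneg i
      nlinarith
    have hPsi1 : Psi w lam M N R Q ((k : ℝ) - i * (1 - 6 / s)) ≤ 1 := by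
      refine hPsi.trans ?_
      have : (i : ℝ) / (16 * k) ≤ 1 / 8 := by
        rw [div_le_div_iff₀ (by linarith) (by norm_num)]
        linarith
      linarith
    rw [hκm] at hκi
    obtain ⟨T, hTQ, hT1, hT2, hT⟩ := step h hs hk hlam hw hQ hDM hDN hPsi1 hκi
    refine ⟨Q \ T, sdiff_subset.trans hQ, ?_, ?_⟩
    · have e : (k : ℝ) - ((i + 1 : ℕ) : ℝ) * (1 - 6 / s) =
          (k : ℝ) - i * (1 - 6 / s) - (1 - 6 / s) := by
        push_cast
        ring
      rw [e]
      refine hT.trans ?_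
      have e2 : ((i + 1 : ℕ) : ℝ) / (16 * k) = i / (16 * k) + 1 / (16 * k) := by
        push_cast
        ring
      rw [e2]
      linarith
    · have e : R \ (Q \ T) = (R \ Q) ∪ T := by
        ext x
        simp only [mem_sdiff, mem_union]
        constructor
        · rintro ⟨h1, h2⟩
          by_cases hx : x ∈ T
          · exact Or.inr hx
          · exact Or.inl ⟨h1, fun h3 => h2 ⟨h3, hx⟩⟩
        · rintro (⟨h1, h2⟩ | h1)
          · exact ⟨h1, fun h3 => h2 h3.1⟩
          · exact ⟨hQ (hTQ h1), fun h3 => h3.2 h1⟩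
      rw [e]
      refine cover_add hC (cover_one hT1 hT2) ?_
      rw [Finset.disjoint_left]
      intro x hx hxT
      exact (mem_sdiff.1 hx).2 (hTQ hxT)

end step

theorem s_main.{u} (h : Pool.Agent.Helper7.SR.S_STEP.{u, 0}) (h2 : Pool.Agent.Helper7.SR.S_COV.{u}) :
    Pool.Agent.Helper7.SR.S_MAIN.{u} := by
  refine ⟨12, by norm_num, ?_⟩
  intro α M N R k s hk hs hDM hDN
  have hs' : (12 : ℝ) ≤ s := by exact_mod_cast hs
  have hk' : (1 : ℝ) ≤ k := by exact_mod_cast hk
  have hn0 : (0 : ℝ) ≤ R.card := Nat.cast_nonneg _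
  obtain ⟨lam, hlam⟩ : ∃ lam : ℝ, lam = 1 / ((s : ℝ) + 1) ^ 2 := ⟨_, rfl⟩
  obtain ⟨w, hw⟩ : ∃ w : ℝ, w = 1 / (16 * ((R.card : ℝ) + 1)) := ⟨_, rfl⟩
  obtain ⟨κm, hκm⟩ : ∃ κm : ℝ, κm = (s : ℝ) / 3 * (Real.log (1 / w) / lam + 2 +
    Real.log (16 * k) / lam) := ⟨_, rfl⟩
  obtain ⟨Λ, hΛ⟩ : ∃ Λ : ℝ, Λ = Real.log (16 * ((R.card : ℝ) + 1) * k) := ⟨_, rfl⟩
  have hlam0 : 0 < lam := by rw [hlam]; positivity
  have hw0 : 0 < w := by rw [hw]; positivity
  have hw1 : 1 / w = 16 * ((R.card : ℝ) + 1) := by rw [hw, one_div_one_div]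
  -- the logarithms
  have hΛ1 : Real.log (1 / w) ≤ Λ := by
    rw [hw1, hΛ]
    apply Real.log_le_log (by positivity)
    nlinarith
  have hΛ2 : Real.log (16 * k) ≤ Λ := by
    rw [hΛ]
    apply Real.log_le_log (by positivity)
    nlinarith
  have hΛ3 : 1 ≤ Λ := by
    rw [hΛ, Real.le_log_iff_exp_le (by positivity)]
    have := Real.exp_one_lt_d9
    nlinarith
  have hΛ4 : Real.log ((R.card : ℝ) + 1) ≤ Λ := by
    rw [hΛ]
    apply Real.log_le_log (by positivity)
    nlinarith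
  have hlw : 0 ≤ Real.log (1 / w) := Real.log_nonneg (by rw [hw1]; linarith)
  have hlk : 0 ≤ Real.log (16 * k) := Real.log_nonneg (by linarith)
  have hil : 1 / lam = ((s : ℝ) + 1) ^ 2 := by rw [hlam, one_div_one_div]
  have hLe : Real.log (1 / w) / lam = Real.log (1 / w) * ((s : ℝ) + 1) ^ 2 := by
    rw [← hil]; ring
  have hke : Real.log (16 * k) / lam = Real.log (16 * k) * ((s : ℝ) + 1) ^ 2 := by
    rw [← hil]; ring
  have hs2 : ((s : ℝ) + 1) ^ 2 ≤ 3 / 2 * s ^ 2 := by nlinarith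
  have hL : Real.log (1 / w) / lam ≤ 3 / 2 * s ^ 2 * Λ := by
    rw [hLe]
    calc Real.log (1 / w) * ((s : ℝ) + 1) ^ 2 ≤ Λ * (3 / 2 * s ^ 2) := by gcongr
      _ = _ := by ring
  have hL2 : Real.log (16 * k) / lam ≤ 3 / 2 * s ^ 2 * Λ := by
    rw [hke]
    calc Real.log (16 * k) * ((s : ℝ) + 1) ^ 2 ≤ Λ * (3 / 2 * s ^ 2) := by gcongr
      _ = _ := by ring
  have hL0 : 0 ≤ Real.log (1 / w) / lam := div_nonneg hlw hlam0.le
  have hL20 : 0 ≤ Real.log (16 * k) / lam := div_nonneg hlk hlam0.le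
  have hκ1 : 1 ≤ κm := by
    rw [hκm]
    nlinarith
  have h6 : 6 / (s : ℝ) ≤ 1 / 2 := by
    rw [div_le_div_iff₀ (by linarith) (by norm_num)]
    linarith
  -- the number of steps
  have hex : ∃ i : ℕ, (k : ℝ) - i * (1 - 6 / s) < κm := by
    refine ⟨2 * k, ?_⟩
    push_cast
    nlinarith
  classical
  obtain ⟨J, hJ1, hJ2⟩ : ∃ J : ℕ, (k : ℝ) - J * (1 - 6 / s) < κm ∧
      ∀ j < J, κm ≤ (k : ℝ) - j * (1 - 6 / s) :=
    ⟨Nat.find hex, Nat.find_spec hex, fun j hj => not_lt.1 (Nat.find_min hex hj)⟩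
  obtain ⟨Q, hQ, hPsi, hC⟩ := iter h hs hk hlam hw hDM hDN hκm (by linarith) J hJ2
  have hJk : (J : ℝ) ≤ k + 12 * k / s + 1 ∧ (J : ℝ) ≤ 2 * k + 1 := by
    rcases J with _ | j
    · have : (0 : ℝ) ≤ 12 * k / s := by positivity
      simp only [Nat.cast_zero]
      constructor <;> linarith
    · have h3 := hJ2 j (by omega)
      have h4 : (0 : ℝ) ≤ j := Nat.cast_nonneg j
      have h5 : (j : ℝ) * (1 - 6 / s) ≤ k := by linarith
      push_cast
      constructor
      · have h7 : 1 ≤ (1 - 6 / (s : ℝ)) * (1 + 12 / s) := by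
          have e : (1 - 6 / (s : ℝ)) * (1 + 12 / s) = 1 + 6 / s * (1 - 12 / s) := by
            field_simp
            ring
          have h8 : 12 / (s : ℝ) ≤ 1 := by
            rw [div_le_one (by linarith)]
            exact hs'
          have h9 : 0 ≤ 6 / (s : ℝ) * (1 - 12 / s) := mul_nonneg (by positivity) (by linarith)
          linarith
        have h10 : 0 ≤ 1 + 12 / (s : ℝ) := by positivity
        have h11 : (j : ℝ) ≤ k * (1 + 12 / s) := by
          calc (j : ℝ) = j * 1 := (mul_one _).symm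
            _ ≤ j * ((1 - 6 / (s : ℝ)) * (1 + 12 / s)) := mul_le_mul_of_nonneg_left h7 h4
            _ = j * (1 - 6 / (s : ℝ)) * (1 + 12 / s) := by ring
            _ ≤ _ := mul_le_mul_of_nonneg_right h5 h10
        have e : (k : ℝ) * (1 + 12 / s) = k + 12 * k / s := by ring
        linarith
      · nlinarith
  have hPsi1 : Psi w lam M N R Q ((k : ℝ) - J * (1 - 6 / s)) ≤ 1 := by
    refine hPsi.trans ?_
    have : (J : ℝ) / (16 * k) ≤ 3 / 16 := by
      rw [div_le_div_iff₀ (by linarith) (by norm_num)]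
      linarith [hJk.2]
    linarith
  have hsM : ∑ I ∈ JJ M R, tm w lam M Q ((k : ℝ) - J * (1 - 6 / s)) I ≤ 1 := by
    have : 0 ≤ ∑ I ∈ JJ N R, tm w lam N Q ((k : ℝ) - J * (1 - 6 / s)) I :=
      sum_nonneg fun I _ => tm_nonneg hw0.le N Q _ I
    unfold Psi at hPsi1
    linarith
  have hsN : ∑ I ∈ JJ N R, tm w lam N Q ((k : ℝ) - J * (1 - 6 / s)) I ≤ 1 := by
    have : 0 ≤ ∑ I ∈ JJ M R, tm w lam M Q ((k : ℝ) - J * (1 - 6 / s)) I :=
      sum_nonneg fun I _ => tm_nonneg hw0.le M Q _ I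
    unfold Psi at hPsi1
    linarith
  obtain ⟨q, hq⟩ : ∃ q : ℕ, q = ⌈κm + Real.log (1 / w) / lam⌉₊ := ⟨_, rfl⟩
  have hq2 : κm + Real.log (1 / w) / lam ≤ q := by rw [hq]; exact Nat.le_ceil _
  have hq3 : (q : ℝ) ≤ κm + Real.log (1 / w) / lam + 1 := by
    rw [hq]
    exact (Nat.ceil_lt_add_one (by linarith)).le
  have hq1 : 1 ≤ q := by
    have : (1 : ℝ) ≤ q := by linarith
    exact_mod_cast this
  have dM := dens_of hw0 hlam0 hQ hsM hDM (q := q) (by linarith)
  have dN := dens_of hw0 hlam0 hQ hsN hDN (q := q) (by linarith)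
  obtain ⟨m', hm', hC'⟩ := h2 α M N Q q hq1 dM dN
  refine ⟨J + m', ?_, ?_⟩
  · have hlogQ : Real.log ((Q.card : ℝ) + 1) ≤ Λ := by
      refine le_trans ?_ hΛ4
      apply Real.log_le_log (by positivity)
      have : (Q.card : ℝ) ≤ R.card := by exact_mod_cast card_le_card hQ
      linarith
    have hqb : (q : ℝ) ≤ 3 * s ^ 3 * Λ := by
      have h3 : κm ≤ s / 3 * (3 / 2 * s ^ 2 * Λ + 2 + 3 / 2 * s ^ 2 * Λ) := by
        rw [hκm]
        gcongr
      have h4 : (s : ℝ) / 3 * (3 / 2 * s ^ 2 * Λ + 2 + 3 / 2 * s ^ 2 * Λ) =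
          s ^ 3 * Λ + 2 / 3 * s := by ring
      have h5 : (s : ℝ) ≤ s ^ 3 * Λ := by
        have h7 : (1 : ℝ) ≤ s ^ 2 * Λ := by nlinarith
        calc (s : ℝ) = s * 1 := (mul_one _).symm
          _ ≤ s * (s ^ 2 * Λ) := mul_le_mul_of_nonneg_left h7 (by linarith)
          _ = _ := by ring
      have h8 : 12 * ((s : ℝ) ^ 2 * Λ) ≤ s ^ 3 * Λ := by
        have h9 : 0 ≤ (s : ℝ) ^ 2 * Λ := by positivity
        calc 12 * ((s : ℝ) ^ 2 * Λ) ≤ s * ((s : ℝ) ^ 2 * Λ) :=
              mul_le_mul_of_nonneg_right hs' h9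
          _ = _ := by ring
      linarith
    have h3 : 2 * (q : ℝ) * Real.log ((Q.card : ℝ) + 1) ≤ 6 * s ^ 3 * Λ ^ 2 := by
      have h4 : 0 ≤ Real.log ((Q.card : ℝ) + 1) := Real.log_nonneg (by
        have : (0 : ℝ) ≤ Q.card := Nat.cast_nonneg _
        linarith)
      calc 2 * (q : ℝ) * Real.log ((Q.card : ℝ) + 1) ≤ 2 * (3 * s ^ 3 * Λ) * Λ := by gcongr
        _ = _ := by ring
    have h5 : (2 : ℝ) ≤ 6 * s ^ 3 * Λ ^ 2 := by
      have h7 : (1 : ℝ) ≤ s ^ 3 := one_le_pow₀ (by linarith)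
      have h8 : (1 : ℝ) ≤ Λ ^ 2 := one_le_pow₀ hΛ3
      nlinarith
    push_cast
    rw [← hΛ]
    linarith [hJk.1]
  · have e : R = (R \ Q) ∪ Q := (sdiff_union_of_subset hQ).symm
    rw [e]
    exact cover_add hC hC' sdiff_disjoint

end Pool.Agent.Helper48.SR
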